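import Pool.Agent.PFC.StmtsB4b

/-!
Row QSP of squad PFC, block B4b: from BQ to the spanning form (helper34).
-/

open scoped BigOperators TensorProduct

noncomputable section

namespace Pool.Agent.PFC.H34

open Pool.Agent.PFC

theorem gr_eval {F V : Type} [Field F] [CommGroup V] [Fintype V] (c : V → F) (w : V) :
    (∑ u, c u • (MonoidAlgebra.of F V u) : MonoidAlgebra F V).coeff w = c w := by
  classical
  rw [MonoidAlgebra.coeff_sum, Finsupp.finsetSum_apply, Finset.sum_eq_single w]
  · simp [MonoidAlgebra.of_apply]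
  · intro b _ hb
    simp [MonoidAlgebra.of_apply, hb]
  · intro h
    exact absurd (Finset.mem_univ w) h

theorem gr_sum {F V : Type} [Field F] [CommGroup V] [Fintype V] (y : MonoidAlgebra F V) :
    ∑ u, y.coeff u • (MonoidAlgebra.of F V u) = y := by
  classical
  apply MonoidAlgebra.coeff_injective
  ext w
  exact gr_eval _ w

theorem iota_fix {F V : Type} [Field F] [CommGroup V] (X : IA F V) (R : Subgroup V) (u : V) :
    X.ι u ∈ Fx (cj F X.ι) R := by
  intro w _
  have h1 : cj F X.ι w (X.ι u) = X.ι w * (X.ι u * X.ι w⁻¹) := rfl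
  rw [h1, ← map_mul, ← map_mul]
  congr 1
  rw [mul_comm u, mul_inv_cancel_left]

theorem qsp (hk : QkeStmt) : QspStmt := by
  classical
  intro ℓ _ F V _ _ _ _ X R hV hBQ
  obtain ⟨β, s, hA⟩ := hBQ
  obtain ⟨-, h2, -⟩ := hk ℓ F V X.A (IA.gr F V).A (cj F X.ι) (cj F (IA.gr F V).ι) R β s hV
    hA.toBrS
  have hsum : ∀ c : V → F, ∑ u, c u • X.ι u ∈ Fx (cj F X.ι) R := by
    intro c
    exact Submodule.sum_mem _ (fun u _ => Submodule.smul_mem _ _ (iota_fix X R u))
  have hb : ∀ c : V → F, β (∑ u, c u • X.ι u) = ∑ u, c u • (MonoidAlgebra.of F V u) := by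
    intro c
    rw [map_sum]
    refine Finset.sum_congr rfl ?_
    intro u _
    rw [map_smul, hA.cov]
    rfl
  refine ⟨?_, ?_⟩
  · intro a ha
    refine ⟨fun u => (β a : MonoidAlgebra F V).coeff u, ?_⟩
    refine (h2 _ (Submodule.sub_mem _ ha (hsum _))).1 ?_
    rw [map_sub, hb, sub_eq_zero]
    exact (gr_sum (β a : MonoidAlgebra F V)).symm
  · intro c hc
    have h3 := (h2 _ (hsum c)).2 hc
    rw [hb] at h3
    funext w
    rw [← gr_eval c w, h3]
    rfl

end Pool.Agent.PFC.H34
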