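import Pool.Agent.PFC.StmtsB4a

/-!
Row SUR of squad PFC, block B4: surjectivity of M^P onto M(R)^P (helper34).
-/

namespace Pool.Agent.PFC.H34

open Pool.Agent.PFC

theorem sur : SurStmt := by
  classical
  intro ℓ _ F H M _ _ _ _ _ _ ρ X hPS R P hR hRP hnorm m hm hmod
  obtain ⟨Ω, hΩ, hact, b, c, hfr, -⟩ := hPS
  have hst : ∀ h ∈ P, ∀ ω ∈ fp R Ω, h • ω ∈ fp R Ω := by
    intro h hh ω hω
    rw [mem_fp] at hω ⊢
    intro r hr
    have h1 : h⁻¹ * r * h ∈ R := by
      have h2 := hnorm h⁻¹ (P.inv_mem hh) r hr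
      rwa [inv_inv] at h2
    have h3 := hω _ h1
    have h4 : r * h = h * (h⁻¹ * r * h) := by group
    rw [← mul_smul, h4, mul_smul, h3]
  refine ⟨∑ ω ∈ fp R Ω, c ω m • b ω, ?_, ?_⟩
  · intro h hh
    rw [map_sum]
    refine Finset.sum_bij (fun ω _ => h • ω) (fun ω hω => hst h hh ω hω) ?_ ?_ ?_
    · intro x _ y _ hxy
      exact MulAction.injective h hxy
    · intro y hy
      exact ⟨h⁻¹ • y, hst _ (P.inv_mem hh) y hy, smul_inv_smul h y⟩
    · intro ω hω
      have h1 : c (h • ω) m = c ω m := by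
        have h2 : c (h • ω) (ρ h m) = c ω m := hfr.2.1 h ω m
        have h3 : c (h • ω) (ρ h m - m) = 0 :=
          frame_BK hfr R hR (hmod h hh) (h • ω) ((mem_fp R Ω _).1 (hst h hh ω hω))
        rw [map_sub, h2] at h3
        exact (sub_eq_zero.1 h3).symm
      rw [map_smul, h1, hfr.1]
  · have h1 := frame_sub hfr R hm
    have h2 := Submodule.neg_mem _ h1
    rwa [neg_sub] at h2

end Pool.Agent.PFC.H34
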